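import Pool.Agent.V11275.Rho.All

/-!
The radii `ρ_n` of largest `n`-enclosing lattice circles are not pairwise distinct:
`ρ_157045 = ρ_157049 = √49997`. The circle with centre `(0, 0)` and this radius encloses `157045`
lattice points and has `24` lattice points on it; the circle with centre `(2/5, 1/5)` and this
radius encloses `157049` lattice points and has `6` lattice points on it; and every circle of a
larger radius encloses at least `157050` lattice points.

The notions `inside`, `onCircle`, `Encloses` are in `Pool.Agent.V11319.MCDefs`.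
-/

namespace Pool.Agent.Results.MP_0dd62e_nt.EqualRadii

open Pool.Agent.V11319.MC Pool.Agent.V11275.Rho

/-- The circle with centre `(x, y)` and radius `r > 0` is a lattice circle: at least three lattice
points lie on it. -/
def IsLatticeCircle (x y r : ℝ) : Prop := 0 < r ∧ 3 ≤ (onCircle x y r).encard

/-- The circle with centre `(x, y)` and radius `r` is a largest `n`-enclosing lattice circle. -/
def IsLargest (n : ℕ) (x y r : ℝ) : Prop :=
  Encloses n x y r ∧ IsLatticeCircle x y r ∧
    ∀ x' y' r', Encloses n x' y' r' → IsLatticeCircle x' y' r' → r' ≤ r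

open Classical in
/-- `ρ_n`: the radius of a largest `n`-enclosing lattice circle if one exists, and `0` otherwise. -/
noncomputable def rho (n : ℕ) : ℝ :=
  if h : ∃ r x y, IsLargest n x y r then h.choose else 0

lemma rho_eq {n : ℕ} {x y r : ℝ} (h : IsLargest n x y r) : rho n = r := by
  have hex : ∃ r x y, IsLargest n x y r := ⟨r, x, y, h⟩
  rw [rho, dif_pos hex]
  obtain ⟨x', y', h'⟩ := hex.choose_spec
  exact le_antisymm (h.2.2 _ _ _ h'.1 h'.2.1) (h'.2.2 _ _ _ h.1 h.2.1)

/-- No circle of radius larger than `√49997` encloses fewer than `157050` lattice points. -/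
lemma radius_le {n : ℕ} (hn : n < 157050) {x y r : ℝ} (h : Encloses n x y r) :
    r ≤ Real.sqrt 49997 := by
  by_contra hcon
  rw [not_le] at hcon
  have hs : Real.sqrt 49997 ^ 2 = 49997 := Real.sq_sqrt (by norm_num)
  have h0 : 0 ≤ Real.sqrt 49997 := Real.sqrt_nonneg _
  have hlt : (49997 : ℝ) < r ^ 2 := by nlinarith
  have key := (good49997 x y).trans (Set.encard_le_encard (Ic_subset_inside hlt))
  rw [h.2] at key
  have : 157050 ≤ n := by exact_mod_cast key
  omega

lemma largest_of {L : List (ℤ × ℤ)} {u v H n : ℕ} (F : CFacts L 1249925 5 u v H 157050 n)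
    (hn : n < 157050) (hL : 3 ≤ L.length) :
    IsLargest n ((u : ℝ) / (5 : ℕ)) ((v : ℝ) / (5 : ℕ)) (Real.sqrt 49997) := by
  have e : (((1249925 : ℕ) : ℝ)) / ((5 : ℕ) : ℝ) ^ 2 = 49997 := by norm_num
  have hpos : 0 < Real.sqrt 49997 := Real.sqrt_pos.2 (by norm_num)
  have hs : Real.sqrt 49997 ^ 2 = 49997 := Real.sq_sqrt (by norm_num)
  refine ⟨⟨hpos, ?_⟩, ⟨hpos, ?_⟩, fun x' y' r' h _ => radius_le hn h⟩
  · have h := F.center
    rw [e] at h
    rw [inside_eq_Io hs]
    exact h
  · have hsub : ((L.toFinset : Finset (ℤ × ℤ)) : Set (ℤ × ℤ)) ⊆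
        onCircle ((u : ℝ) / (5 : ℕ)) ((v : ℝ) / (5 : ℕ)) (Real.sqrt 49997) := by
      intro p hp
      have hp' : p ∈ L := by simpa using hp
      have h1 := (F.boundary p).2 hp'
      rw [nrm] at h1
      have h2 : ((5 : ℝ) * p.1 - u) ^ 2 + ((5 : ℝ) * p.2 - v) ^ 2 = 1249925 := by
        exact_mod_cast h1
      show ((p.1 : ℝ) - (u : ℝ) / (5 : ℕ)) ^ 2 + ((p.2 : ℝ) - (v : ℝ) / (5 : ℕ)) ^ 2 =
        Real.sqrt 49997 ^ 2
      rw [hs]
      push_cast
      linear_combination h2 / 25
    refine le_trans ?_ (Set.encard_le_encard hsub)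
    rw [Set.encard_coe_eq_coe_finsetCard, List.toFinset_card_of_nodup F.nodup]
    exact_mod_cast hL

theorem largestA : IsLargest 157045 0 0 (Real.sqrt 49997) := by
  have h := largest_of cfactsA (by norm_num) (by decide)
  norm_num at h
  exact h

theorem largestB : IsLargest 157049 (2 / 5) (1 / 5) (Real.sqrt 49997) := by
  have h := largest_of cfactsB (by norm_num) (by decide)
  norm_num at h
  norm_num
  exact h

/-- `ρ_157045 = ρ_157049 = √49997`; hence the numbers `ρ_n` with `n ≥ 0`, `n ≠ 6` are not pairwise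
distinct. -/
theorem result :
    rho 157045 = Real.sqrt 49997 ∧ rho 157049 = Real.sqrt 49997 ∧
      ¬ ∀ m n : ℕ, m ≠ 6 → n ≠ 6 → m ≠ n → rho m ≠ rho n := by
  have h1 := rho_eq largestA
  have h2 := rho_eq largestB
  exact ⟨h1, h2, fun h => h 157045 157049 (by norm_num) (by norm_num) (by norm_num)
    (h1.trans h2.symm)⟩

end Pool.Agent.Results.MP_0dd62e_nt.EqualRadii
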